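import Pool.Agent.H69.LQ.Lib

/-!
# MP_8f7db2_an, row SE: the angular energy
-/

set_option autoImplicit false

open MeasureTheory Metric Set
open scoped ENNReal
open Pool.Agent.H85.LK (E adm lam Ann)
open Pool.Agent.H69.LQ

namespace Pool.Agent.H68.LQ

variable {N : ℕ}

lemma contDiff_coord (i : Fin N) : ContDiff ℝ (⊤ : ℕ∞) fun x : E N => x i :=
  (EuclideanSpace.proj (𝕜 := ℝ) i).contDiff

lemma cont_LL (i j : Fin N) {f : E N → ℝ} (hf : ContDiff ℝ (⊤ : ℕ∞) f) :
    Continuous (LL i j f) := by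
  have h1 : Continuous (fderiv ℝ f) := hf.continuous_fderiv (by simp)
  have h2 : ∀ k : Fin N, Continuous fun x : E N => x k := fun k => (contDiff_coord k).continuous
  exact ((h2 i).mul (h1.clm_apply continuous_const)).sub
    ((h2 j).mul (h1.clm_apply continuous_const))

lemma cont_Gs {f : E N → ℝ} (hf : ContDiff ℝ (⊤ : ℕ∞) f) : Continuous (Gs f) := by
  unfold Gs
  exact continuous_const.mul (continuous_finsetSum _ fun i _ => continuous_finsetSum _ fun j _ =>
    (cont_LL i j hf).pow 2)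

lemma cont_Gb {f g : E N → ℝ} (hf : ContDiff ℝ (⊤ : ℕ∞) f) (hg : ContDiff ℝ (⊤ : ℕ∞) g) :
    Continuous (Gb f g) := by
  unfold Gb
  exact continuous_const.mul (continuous_finsetSum _ fun i _ => continuous_finsetSum _ fun j _ =>
    (cont_LL i j hf).mul (cont_LL i j hg))

lemma cont_ev (P : MvPolynomial (Fin N) ℝ) : Continuous (ev P) := by
  unfold ev
  exact (MvPolynomial.continuous_eval P).comp
    (continuous_pi fun i => (contDiff_coord i).continuous)

lemma LL_add (i j : Fin N) {f g : E N → ℝ} (hf : ContDiff ℝ (⊤ : ℕ∞) f)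
    (hg : ContDiff ℝ (⊤ : ℕ∞) g) (x : E N) :
    LL i j (fun x => f x + g x) x = LL i j f x + LL i j g x := by
  have hf' : DifferentiableAt ℝ f x := (hf.differentiable (by simp)) x
  have hg' : DifferentiableAt ℝ g x := (hg.differentiable (by simp)) x
  unfold LL
  rw [fderiv_fun_add hf' hg']
  simp only [add_apply]
  ring

lemma Gs_add {f g : E N → ℝ} (hf : ContDiff ℝ (⊤ : ℕ∞) f)
    (hg : ContDiff ℝ (⊤ : ℕ∞) g) (x : E N) :
    Gs (fun x => f x + g x) x = Gs f x + 2 * Gb g f x + Gs g x := by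
  unfold Gs Gb
  have h1 : ∀ i j, LL i j (fun x => f x + g x) x ^ 2 =
      LL i j f x ^ 2 + 2 * (LL i j g x * LL i j f x) + LL i j g x ^ 2 := fun i j => by
    rw [LL_add i j hf hg]; ring
  simp only [h1, Finset.sum_add_distrib, ← Finset.mul_sum]
  ring

lemma ev_add (P Q : MvPolynomial (Fin N) ℝ) (x : E N) : ev (P + Q) x = ev P x + ev Q x :=
  map_add _ _ _

lemma finsupp_cases {m : Fin N →₀ ℕ} (hm : m ≠ 0) :
    ∃ (j : Fin N) (m' : Fin N →₀ ℕ), m = Finsupp.single j 1 + m' ∧ m'.degree + 1 = m.degree := by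
  obtain ⟨j, hj⟩ : ∃ j, m j ≠ 0 := by
    by_contra h
    push Not at h
    exact hm (Finsupp.ext h)
  have h1 : m = Finsupp.single j 1 + (m - Finsupp.single j 1) := by
    ext i
    rw [Finsupp.add_apply, Finsupp.tsub_apply]
    by_cases hi : j = i
    · subst hi
      rw [Finsupp.single_eq_same]
      omega
    · rw [Finsupp.single_apply, if_neg hi]
      omega
  refine ⟨j, m - Finsupp.single j 1, h1, ?_⟩
  have h2 := congrArg Finsupp.degree h1
  rw [map_add, Finsupp.degree_single] at h2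
  omega

lemma orth_mon {h : Sp N → ℝ} (h0 : av h = 0)
    (h1 : ∀ j, av (fun θ => h θ * (θ : E N) j) = 0)
    (h2 : ∀ j k, av (fun θ => h θ * ((θ : E N) j * (θ : E N) k)) = 0)
    {m : Fin N →₀ ℕ} (hm : m.degree ≤ 2) (a : ℝ) :
    av (fun θ : Sp N => h θ * ev (MvPolynomial.monomial m a) (θ : E N)) = 0 := by
  have hz : ∀ x : E N, ev (MvPolynomial.monomial 0 a) x = a := fun x => by
    unfold ev
    rw [MvPolynomial.eval_monomial]
    simp
  have hs : ∀ (j : Fin N) (m' : Fin N →₀ ℕ) (x : E N),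
      ev (MvPolynomial.monomial (Finsupp.single j 1 + m') a) x =
        x j * ev (MvPolynomial.monomial m' a) x := fun j m' x => by
    unfold ev
    rw [MvPolynomial.monomial_single_add, map_mul, map_pow, MvPolynomial.eval_X, pow_one]
  by_cases hm0 : m = 0
  · subst hm0
    have h3 : (fun θ : Sp N => h θ * ev (MvPolynomial.monomial 0 a) (θ : E N)) =
        fun θ => h θ * a := funext fun θ => by rw [hz]
    rw [h3, av_mul_const, h0, zero_mul]
  obtain ⟨j, m', rfl, hm'⟩ := finsupp_cases hm0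
  by_cases hm0' : m' = 0
  · subst hm0'
    have h3 : (fun θ : Sp N => h θ *
        ev (MvPolynomial.monomial (Finsupp.single j 1 + 0) a) (θ : E N)) =
        fun θ => h θ * (θ : E N) j * a := funext fun θ => by rw [hs, hz]; ring
    rw [h3, av_mul_const, h1, zero_mul]
  obtain ⟨k, m'', rfl, hm''⟩ := finsupp_cases hm0'
  have hm3 : m'' = 0 := by
    rw [← Finsupp.degree_eq_zero_iff]
    omega
  subst hm3
  have h3 : (fun θ : Sp N => h θ * ev (MvPolynomial.monomial
      (Finsupp.single j 1 + (Finsupp.single k 1 + 0)) a) (θ : E N)) =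
      fun θ => h θ * ((θ : E N) j * (θ : E N) k) * a :=
    funext fun θ => by rw [hs, hs, hz]; ring
  rw [h3, av_mul_const, h2, zero_mul]

lemma orth_poly {h : Sp N → ℝ} (hb : BM h) (h0 : av h = 0)
    (h1 : ∀ j, av (fun θ => h θ * (θ : E N) j) = 0)
    (h2 : ∀ j k, av (fun θ => h θ * ((θ : E N) j * (θ : E N) k)) = 0)
    {Q : MvPolynomial (Fin N) ℝ} (hQ : Q.totalDegree ≤ 2) :
    av (fun θ : Sp N => h θ * ev Q (θ : E N)) = 0 := by
  have h3 : (fun θ : Sp N => h θ * ev Q (θ : E N)) = fun θ : Sp N => ∑ m ∈ Q.support,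
      h θ * ev (MvPolynomial.monomial m (Q.coeff m)) (θ : E N) := by
    funext θ
    rw [← Finset.mul_sum]
    congr 1
    unfold ev
    conv_lhs => rw [MvPolynomial.as_sum Q]
    rw [map_sum]
  rw [h3, av_sum]
  · refine Finset.sum_eq_zero fun m hm => ?_
    refine orth_mon h0 h1 h2 ?_ _
    have h4 := MvPolynomial.le_totalDegree hm
    exact le_trans (le_of_eq rfl) (h4.trans hQ)
  · intro m _
    exact hb.mul (BM_cont ((cont_ev _).comp continuous_subtype_val))

theorem pf_SE (_ : T_MP) (_ : T_MO) (hPY : T_PY) (hKP : T_KP) (hGP : T_GP)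
    (hS1 : T_S1) : T_SE := by
  intro N g hN hg
  have hN0 : (0 : ℝ) < N := by exact_mod_cast (by omega : 0 < N)
  set F : Sp N → ℝ := rs g 1 with hF
  have hFg : ∀ θ : Sp N, F θ = g (θ : E N) := fun θ => by
    show g ((1 : ℝ) • (θ : E N)) = _
    rw [one_smul]
  have hFb : BM F := by
    have h1 : F = fun θ : Sp N => g (θ : E N) := funext hFg
    rw [h1]
    exact BM_cont (hg.continuous.comp continuous_subtype_val)
  set m : ℝ := av F with hm
  set c : Fin N → ℝ := c1 F with hc
  set B : Fin N → Fin N → ℝ := c2 F with hB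
  set Q : MvPolynomial (Fin N) ℝ := MvPolynomial.C m +
    (∑ j, MvPolynomial.C (c j) * MvPolynomial.X j) +
    ∑ j, ∑ k, MvPolynomial.C (B j k) * (MvPolynomial.X j * MvPolynomial.X k) with hQ
  set q : E N → ℝ := fun x : E N => m + (∑ j, c j * x j) + ∑ j, ∑ k, B j k * (x j * x k) with hq
  have hQq : ev Q = q := by
    funext x
    unfold ev
    rw [hQ, hq]
    simp only [map_add, map_sum, map_mul, MvPolynomial.eval_C, MvPolynomial.eval_X]
  have hQd : Q.totalDegree ≤ 2 := by
    have hX : ∀ j : Fin N, (MvPolynomial.X j : MvPolynomial (Fin N) ℝ).totalDegree ≤ 1 :=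
      fun j => (MvPolynomial.totalDegree_X (R := ℝ) j).le
    have hCX : ∀ (a : ℝ) (P : MvPolynomial (Fin N) ℝ), P.totalDegree ≤ 2 →
        (MvPolynomial.C a * P).totalDegree ≤ 2 := fun a P hP => by
      refine (MvPolynomial.totalDegree_mul _ _).trans ?_
      rw [MvPolynomial.totalDegree_C, zero_add]
      exact hP
    rw [hQ]
    refine (MvPolynomial.totalDegree_add _ _).trans (max_le ?_ ?_)
    · refine (MvPolynomial.totalDegree_add _ _).trans (max_le ?_ ?_)
      · rw [MvPolynomial.totalDegree_C]; omega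
      · refine MvPolynomial.totalDegree_finsetSum_le fun j _ => ?_
        exact hCX _ _ ((hX j).trans (by omega))
    · refine MvPolynomial.totalDegree_finsetSum_le fun j _ => ?_
      refine MvPolynomial.totalDegree_finsetSum_le fun k _ => ?_
      refine hCX _ _ ((MvPolynomial.totalDegree_mul _ _).trans ?_)
      have h1 := hX j
      have h2 := hX k
      omega
  have hqs : ContDiff ℝ (⊤ : ℕ∞) q := by
    have hco := fun j : Fin N => contDiff_coord j
    refine (contDiff_const.add (ContDiff.sum fun j _ => contDiff_const.mul (hco j))).add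
      (ContDiff.sum fun j _ => ContDiff.sum fun k _ => contDiff_const.mul ((hco j).mul (hco k)))
  set h : E N → ℝ := fun x => g x - q x with hh
  have hhs : ContDiff ℝ (⊤ : ℕ∞) h := hg.sub hqs
  have hhr : ∀ θ : Sp N, h (θ : E N) = r3 F θ := by
    intro θ
    unfold r3
    rw [hFg θ]
    show g (θ : E N) - (m + (∑ j, c j * (θ : E N) j) +
      ∑ j, ∑ k, B j k * ((θ : E N) j * (θ : E N) k)) = _
    ring
  have hhr' : (fun θ : Sp N => h (θ : E N)) = r3 F := funext hhr
  obtain ⟨-, hPb, hP0, hP1, hP2⟩ := hPY N F hN hFb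
  have horth : ∀ P : MvPolynomial (Fin N) ℝ, P.totalDegree ≤ 2 →
      av (fun θ : Sp N => h (θ : E N) * ev P (θ : E N)) = 0 := by
    intro P hP
    have h1 := orth_poly hPb hP0 hP1 hP2 hP
    simp only [hhr]
    exact h1
  have hsum : ∀ θ : Sp N, Gs g (θ : E N) =
      Gs q (θ : E N) + 2 * Gb h q (θ : E N) + Gs h (θ : E N) := by
    intro θ
    have h1 : g = fun x => q x + h x := funext fun x => by rw [hh]; ring
    conv_lhs => rw [h1]
    exact Gs_add hqs hhs _
  have hval := continuous_subtype_val (p := fun x : E N => x ∈ sphere (0 : E N) 1)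
  have hb1 : BM fun θ : Sp N => Gs q (θ : E N) := BM_cont ((cont_Gs hqs).comp hval)
  have hb2 : BM fun θ : Sp N => Gb h q (θ : E N) := BM_cont ((cont_Gb hhs hqs).comp hval)
  have hb3 : BM fun θ : Sp N => Gs h (θ : E N) := BM_cont ((cont_Gs hhs).comp hval)
  have hav : av (fun θ : Sp N => Gs g (θ : E N)) = av (fun θ : Sp N => Gs q (θ : E N)) +
      2 * av (fun θ : Sp N => Gb h q (θ : E N)) + av (fun θ : Sp N => Gs h (θ : E N)) := by
    have h1 : (fun θ : Sp N => Gs g (θ : E N)) = fun θ : Sp N =>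
        (Gs q (θ : E N) + 2 * Gb h q (θ : E N)) + Gs h (θ : E N) := funext hsum
    rw [h1, av_add (hb1.add (hb2.const_mul 2)) hb3, av_add hb1 (hb2.const_mul 2), av_const_mul]
  -- the mixed term
  have hmix : av (fun θ : Sp N => Gb h q (θ : E N)) = 0 := by
    obtain ⟨Q', hQ', -, hK⟩ := hKP N 2 Q hN hQd
    have h1 := hK h hhs
    rw [hQq] at h1
    rw [h1]
    have h2 := horth Q hQd
    have h3 := horth Q' (hQ'.trans (by norm_num))
    rw [hQq] at h2
    have hb4 : BM fun θ : Sp N => h (θ : E N) * q (θ : E N) :=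
      BM_cont ((hhs.continuous.comp hval).mul (hqs.continuous.comp hval))
    have hb5 : BM fun θ : Sp N => h (θ : E N) * ev Q' (θ : E N) :=
      BM_cont ((hhs.continuous.comp hval).mul ((cont_ev Q').comp hval))
    have h4 : (fun θ : Sp N => h (θ : E N) * (((2 : ℕ) : ℝ) * (((2 : ℕ) : ℝ) + N - 2) *
        q (θ : E N) + ev Q' (θ : E N))) = fun θ : Sp N =>
        (((2 : ℕ) : ℝ) * (((2 : ℕ) : ℝ) + N - 2)) * (h (θ : E N) * q (θ : E N)) +
          h (θ : E N) * ev Q' (θ : E N) := funext fun θ => by ring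
    rw [h4, av_add (hb4.const_mul _) hb5, av_const_mul, h2, h3, mul_zero, add_zero]
  -- the part of degree at most 2
  have hsym : ∀ j k, B j k = B k j := by
    intro j k
    show c2 F j k = c2 F k j
    unfold c2
    have h1 : (fun θ : Sp N => F θ * ((θ : E N) j * (θ : E N) k)) =
        fun θ : Sp N => F θ * ((θ : E N) k * (θ : E N) j) :=
      funext fun θ => by rw [mul_comm ((θ : E N) j)]
    rw [h1]
    by_cases hjk : j = k
    · rw [if_pos hjk, if_pos hjk.symm]
    · rw [if_neg hjk, if_neg fun h => hjk h.symm]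
  have htr : ∑ j, B j j = 0 := by
    have h1 : ∀ j, B j j = N * (N + 2) / 2 *
        (av (fun θ : Sp N => F θ * ((θ : E N) j * (θ : E N) j)) - av F / N) := fun j => by
      show c2 F j j = _
      unfold c2
      rw [if_pos rfl]
    have h2 : ∑ j, av (fun θ : Sp N => F θ * ((θ : E N) j * (θ : E N) j)) = av F := by
      rw [← av_sum Finset.univ fun j _ => hFb.mul ((BM_coord j).mul (BM_coord j))]
      congr 1
      funext θ
      rw [← Finset.mul_sum]
      have h3 := sum_sq_sp θ
      simp only [pow_two] at h3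
      rw [h3, mul_one]
    simp only [h1]
    rw [← Finset.mul_sum, Finset.sum_sub_distrib, h2, Finset.sum_const, Finset.card_univ,
      Fintype.card_fin, nsmul_eq_mul, mul_div_cancel₀ _ hN0.ne', sub_self, mul_zero]
  have hS := hS1 N m c B hN hsym htr
  -- the part of degree at least 3
  have hG := hGP N 3 h hN hhs fun P hP => horth P (by omega)
  have hn3 : av (fun θ : Sp N => h (θ : E N) ^ 2) = n3 F := by
    unfold n3
    simp only [hhr]
  rw [hn3] at hG
  have hn1 : ((N : ℝ) - 1) * n1 F = ((N : ℝ) - 1) / N * (∑ j, c j ^ 2) := by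
    unfold n1
    rw [hc]
    ring
  have hn2 : 2 * N * n2 F = 4 / ((N : ℝ) + 2) * ∑ j, ∑ k, B j k ^ 2 := by
    unfold n2
    rw [hB]
    field_simp
    ring
  have hS' : av (fun θ : Sp N => Gs q (θ : E N)) =
      ((N : ℝ) - 1) * n1 F + 2 * N * n2 F := by
    rw [hn1, hn2]
    exact hS
  rw [hav, hmix, hS']
  have h9 : ((3 : ℕ) : ℝ) * (((3 : ℕ) : ℝ) + N - 2) = 3 * ((N : ℝ) + 1) := by
    push_cast
    ring
  rw [h9] at hG
  linarith

end Pool.Agent.H68.LQ
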